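import Mathlib
import Pool.Agent.Y198.DP.Nef

/-!
# A quartic del Pezzo fibration with too many dominant families of sections

The definitions are in `Pool.Agent.Y198.DP.Defs` (the threefold `X`, its classes, the space of
sections with its Zariski topology, the number of dominant families), `Pool.Agent.Y198.DP.Facts`
(fibres, chart) and `Pool.Agent.Y198.DP.Nef` (translates).

`X` is a smooth hypersurface in a smooth projective toric variety of dimension four, given by
`(b0 e + b1 g) b0 g a0 ^ 2 + (b0 e - 3 b1 g) b1 e a1 ^ 2 = t u w ^ 2` in its homogeneous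
coordinates `t, u, b0, b1, a0, a1, w, e, g`, with the fibration `π = (t e : u g) : X → ℙ¹`.
Its fibre over `(p : q)` with `p, q ≠ 0` is a smooth complete intersection of two quadrics in
`ℙ⁴`, a del Pezzo surface of degree four. The fibre over `(0 : 1)` is the union of the surfaces
`t = 0` and `e = 0`, the fibre over `(1 : 0)` is the union of the surfaces `u = 0` and `g = 0`. The
intersection profile `λ` considered here is `(e, g)`.

`X` is rational, so its Brauer group is zero. The complement in `X` of the five surfaces `e = 0`,
`g = 0`, `b1 = 0`, `a1 = 0`, `w = 0` (they are irreducible) is the affine threefold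
`t u = (b0 + 1) b0 a0 ^ 2 + b0 - 3` with trivial class group and only constant units, so that these
five surfaces are a basis of `Pic X`, as in the toric variety, and `Pic X = ℤ ^ 5`. By the same
argument the coordinate ring of `coneX` is factorial and is the Cox ring of `X`.

The involution `a1 ↦ -a1` of `X` acts on the families of sections, and the proof shows that it
moves some dominant family of every class `(1, 2 j + 1, 3 (2 j + 1), 1, 1)`: there are two functions
`A`, `B` on the space of sections of this class (products of resultants of the coordinates), well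
defined up to a common factor, with `A ^ 2 = 9 ^ j B ^ 2`, and the involution changes the sign of
`B` only.
-/

set_option autoImplicit false

namespace Pool.Agent.Results.MP_9669a9_ag.SectionFamilies

open Pool.Agent.Y198.DP Pool.Agent.Y198.DP.Co

/-- The threefold `X` is smooth and irreducible; its fibres over the points `(p : q)` with
`p, q ≠ 0` are smooth complete intersections of two quadrics in `ℙ⁴`; it contains an open subset
isomorphic to `ℂ ^ * × ℂ ^ 2`; its nef cone of curves is the dual cone of the nine coordinate
classes. Every translate of `Nef_λ` in `N_λ`, for the profile `λ = (e, g)`, contains an integral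
class `α` such that there are at least two dominant families of sections of class `α`. -/
theorem result :
    -- `X` is smooth and irreducible
    (∀ x ∈ coneX, ∃ i, MvPolynomial.eval x (MvPolynomial.pderiv i eqn) ≠ 0) ∧
    @IsIrreducible _ (zariski Co) coneX ∧
    -- the fibres of `π = (t e : u g)` over the points different from `(0 : 1)` and `(1 : 0)`
    (∀ p q : ℂ, p ≠ 0 → q ≠ 0 →
      (∀ x ∈ fibre p q, toP4 x ∈ surf (q / p)) ∧
      (∀ z ∈ surf (q / p), ∃ x ∈ fibre p q, toP4 x = z) ∧
      (∀ x ∈ fibre p q, ∀ y ∈ fibre p q,
        (SamePoint x y ↔ ∃ s : ℂˣ, toP4 y = fun k => (s : ℂ) * toP4 x k)) ∧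
      ∀ z ∈ surf (q / p), LinearIndependent ℂ ![grad quad1 z, grad (quad2 (q / p)) z]) ∧
    -- `X` is rational: a chart
    (∀ p : Fin 3 → ℂ, p 0 ≠ 0 → chart p ∈ coneX) ∧
    (∀ x ∈ coneX, x t ≠ 0 → x b1 ≠ 0 → x a1 ≠ 0 → x w ≠ 0 → x e ≠ 0 → x g ≠ 0 →
      ∃! p : Fin 3 → ℂ, p 0 ≠ 0 ∧ SamePoint (chart p) x) ∧
    -- the nef cone of curves
    nefCone = {γ | ∀ i, 0 ≤ pair γ (cls i)} ∧
    -- every translate of `Nef_λ` contains a class with at least two dominant families
    ∀ v ∈ profileDir, ∃ α : Fin 5 → ℤ, (fun i => (α i : ℝ)) ∈ nefTranslate v ∧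
      2 ≤ numDominant α := by
  refine ⟨fun x hx => smooth hx, irr_coneX, fun p q hp hq => ⟨fun x hx => toP4_mem hp hq hx,
    fun z hz => toP4_surj hp hq hz, fun x hx y hy => samePoint_iff hp hq hx hy,
    fun z hz => surf_smooth (div_ne_zero hq hp) hz⟩, fun p hp => chart_mem hp,
    fun x hx h1 h2 h3 h4 h5 h6 => chart_unique hx h1 h2 h3 h4 h5 h6, nefCone_eq,
    fun v hv => ?_⟩
  obtain ⟨j, hj⟩ := al_mem hv
  exact ⟨al j, hj, two_le j⟩

end Pool.Agent.Results.MP_9669a9_ag.SectionFamilies
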